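import Pool.Agent.H19.A2.Df2
import Pool.Agent.H77.PT.Fda

/-!
# H88-E2-DEFS: the end of AP2 (MP_b39724_nt, all classes, stage 2, think 1616): definitions and the analytic interface (proofs: helper55, H55/E2)

* `wS D N M T₀ Y E V`: the sum over the rich configurations outside `E` of norm at most `Y` of the product of the weights `V j v`.
* `E2Ub`: the uniform upper bound for the weights `fx (S j) (φ (F v))` (`fx` of H77/PT/Dq: the number of fixed points on the cosets of `S j`), `φ` onto, unramified outside `S0` and `E`.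
* `E2Lim`: the limit for one `φ` unramified outside `S0`.
-/

set_option autoImplicit false
set_option linter.dupNamespace false

open scoped NumberField
open IsDedekindDomain Filter Topology
open scoped Classical

noncomputable section

namespace H88.E2

open H63.MA H38.ML H38.BB H38.BG H57.PC H57.BRA H77.PC3 H77.WD Pool.Agent.H19.NF Pool.Agent.H19.AB
  H35.CF H86.AP H77.WE Pool.Agent.H19.A2

/-- the weighted sum over the rich configurations -/
def wS {K : Type} [Field K] [NumberField K] {p : ℕ} {ζ : K} (D : RD0 K p ζ) (N : ℕ) [NeZero N]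
    (M : ℕ) (T₀ Y : ℝ) (E : Finset (Pl K)) (V : Fin N → Pl K → ℝ) : ℝ :=
  ∑ f ∈ RC D N M T₀ Y E, ∏ v ∈ sp (ZZ D Y \ E) f, V (cf f v) v

variable {p N : ℕ} [NeZero N] {K : IntermediateField ℚ QBar} [NumberField K] {ζ : K}

/-- the uniform upper bound -/
def E2Ub (D : RD0 K p ζ) (L : LDs D QBar) (Fr : FR L) {R : Type} [Group R]
    (S : Fin N → Subgroup R) : Prop :=
  ∃ (C : ℝ) (A : ℕ), 1 ≤ C ∧ ∀ φ : Gal(QBar/K) →* R, H38.ML.FT φ → Function.Surjective φ →
    ∀ E : Finset (Pl K), Unz L E φ → ∀ (M : ℕ) (T₀ Y : ℝ), 3 ≤ Y →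
      wS D N M T₀ Y E (fun j v => H77.PT.fx (S j) (φ (Fr.F v))) ≤
        C * (1 + Real.log (nr E)) ^ A * (Y * Real.log Y ^ (N - 1))

/-- the limit -/
def E2Lim (D : RD0 K p ζ) (L : LDs D QBar) (Fr : FR L) {R : Type} [Group R]
    (S : Fin N → Subgroup R) (φ : Gal(QBar/K) →* R) : Prop :=
  ∃ l : ℝ, 0 < l ∧ ∀ (M : ℕ) (ε : ℝ), 0 < ε → ε < 1 →
    Tendsto (fun Y : ℝ => wS D N M (Real.exp (Real.log Y ^ ε)) Y ∅
      (fun j v => H77.PT.fx (S j) (φ (Fr.F v))) / (Y * Real.log Y ^ (N - 1))) atTop (𝓝 l)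

end H88.E2
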