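import Pool.Agent.H88.E2.Gra

/-!
# H88-E2-GRB: the local weights at unramified places are permutation characters (end of AP2, MP_b39724_nt, all classes, stage 2)

`C = Subgroup.centralizer {g}`, `S = C.map q`, `q g = 1`, `Tj b g`. `vg_perm`: `Vg q b g 1 x = fx S x` (`fx` = the number of fixed points of `x` on `G ⧸ S`). `sum_fib`: sums over the fibres of a map whose fibres are the
cosets of a subgroup; it is used for `y ↦ y g y⁻¹`, for `q` on `C`, for `q`, and for `G → G ⧸ S`.
-/

set_option autoImplicit false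
set_option linter.dupNamespace false

open scoped Classical

noncomputable section

namespace H88.E2

open Pool.Agent.H19.NF Pool.Agent.H19.AB H86.AP

variable {p m l : ℕ} {P G : Type} [Group P] [Group G]

/-- sums over the fibres of the map to the cosets -/
theorem sum_fib {A X : Type} [Group A] [Fintype A] [Fintype X] (f : A → X) (H : Subgroup A)
    (hf : ∀ y y', f y = f y' ↔ y⁻¹ * y' ∈ H) (F : X → ℂ) :
    ∑ y, F (f y) = Nat.card H * ∑ x, if x ∈ Set.range f then F x else 0 := by
  rw [Finset.mul_sum, ← Finset.sum_fiberwise Finset.univ f]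
  refine Finset.sum_congr rfl fun x _ => ?_
  split_ifs with hx
  · obtain ⟨y₀, rfl⟩ := hx
    rw [Finset.sum_congr rfl (fun y hy => by rw [(Finset.mem_filter.1 hy).2]), Finset.sum_const,
      nsmul_eq_mul]
    congr 2
    have h1 : (Finset.univ.filter fun y => f y = f y₀) =
        (Finset.univ : Finset H).image (fun h : H => y₀ * (h : A)) := by
      ext y
      rw [Finset.mem_filter, Finset.mem_image]
      constructor
      · rintro ⟨-, h⟩
        exact ⟨⟨y₀⁻¹ * y, (hf y₀ y).1 h.symm⟩, Finset.mem_univ _, mul_inv_cancel_left y₀ y⟩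
      · rintro ⟨h, -, rfl⟩
        refine ⟨Finset.mem_univ _, ((hf _ _).2 ?_).symm⟩
        rw [inv_mul_cancel_left]
        exact h.2
    rw [h1, Finset.card_image_of_injective _ fun a b h => Subtype.ext (mul_left_cancel h),
      Finset.card_univ, Nat.card_eq_fintype_card]
  · rw [mul_zero]
    exact Finset.sum_eq_zero fun y hy => absurd ⟨y, (Finset.mem_filter.1 hy).2⟩ hx

theorem vg_perm [Fintype P] [NeZero (p ^ m)] {q : P →* G} (hq : Function.Surjective q)
    {b : P → P → ZMod (p ^ m)} {w : G → G → G → ZMod (p ^ m)} (h : Sta p m l q b w) {g : P}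
    (hg : q g = 1) (ht : Tj b g) (x : G) :
    Vg q b g 1 x = (H77.PT.fx ((Subgroup.centralizer {g}).map q) x : ℂ) := by
  haveI : Finite G := Finite.of_surjective q hq
  haveI : Fintype G := Fintype.ofFinite G
  set C : Subgroup P := Subgroup.centralizer {g} with hC
  set S : Subgroup G := C.map q with hS
  haveI : Fintype (G ⧸ S) := Fintype.ofFinite _
  have hmC : ∀ z : P, z ∈ C ↔ g * z = z * g := fun z => by
    rw [hC, Subgroup.mem_centralizer_singleton_iff]
    exact eq_comm
  -- step 1
  have e1 : (Nat.card q.ker : ℂ) * Vg q b g 1 x =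
      ∑ σ : P, if σ ∈ Set.range (fun y : P => y * g * y⁻¹) then
        (∑ x' : P, if q x' = x ∧ σ * x' = x' * σ then (1 : ℂ) else 0) else 0 := by
    unfold Vg
    rw [← mul_assoc, mul_inv_cancel₀ (by exact_mod_cast Nat.card_pos.ne'), one_mul]
    refine Finset.sum_congr rfl fun σ _ => ?_
    have h1 : σ ∈ Set.range (fun y : P => y * g * y⁻¹) ↔ IsConj σ g ∧ q σ = 1 := by
      constructor
      · rintro ⟨y, rfl⟩
        refine ⟨isConj_iff.2 ⟨y⁻¹, by group⟩, ?_⟩
        show q (y * g * y⁻¹) = 1
        rw [map_mul, map_mul, hg, mul_one, ← map_mul, mul_inv_cancel, map_one]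
      · rintro ⟨h2, -⟩
        obtain ⟨y, hy⟩ := isConj_iff.1 h2.symm
        exact ⟨y, hy⟩
    by_cases h2 : IsConj σ g ∧ q σ = 1
    · rw [if_pos h2, if_pos (h1.2 h2)]
      unfold VV
      refine Finset.sum_congr rfl fun x' _ => ?_
      by_cases h3 : q x' = x
      · by_cases h4 : σ * x' = x' * σ
        · rw [if_pos h3, if_pos ⟨h3, h4⟩, WC, if_pos h4, tj_cj h hg ht h2.1 h4, neg_zero,
            AddChar.map_zero_eq_one, one_mul]
        · rw [if_pos h3, if_neg fun h5 => h4 h5.2, WC, if_neg h4, zero_mul]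
      · rw [if_neg h3, if_neg fun h5 => h3 h5.1]
    · rw [if_neg h2, if_neg fun h3 => h2 (h1.1 h3)]
  -- step 2
  have e2 : ∑ y : P, (∑ x' : P, if q x' = x ∧ (y * g * y⁻¹) * x' = x' * (y * g * y⁻¹) then
      (1 : ℂ) else 0) = Nat.card C * ((Nat.card q.ker : ℂ) * Vg q b g 1 x) := by
    rw [e1]
    refine sum_fib (fun y : P => y * g * y⁻¹) C (fun y y' => ?_)
      (fun σ => ∑ x' : P, if q x' = x ∧ σ * x' = x' * σ then (1 : ℂ) else 0)
    rw [hmC]
    beta_reduce
    constructor
    · intro h5
      have h6 : g = y⁻¹ * (y' * g * y'⁻¹) * y := by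
        rw [← h5]
        group
      calc g * (y⁻¹ * y') = y⁻¹ * (y' * g * y'⁻¹) * y * (y⁻¹ * y') := by rw [← h6]
        _ = y⁻¹ * y' * g := by group
    · intro h5
      calc y * g * y⁻¹ = y * (g * (y⁻¹ * y')) * y'⁻¹ := by group
        _ = y * (y⁻¹ * y' * g) * y'⁻¹ := by rw [h5]
        _ = y' * g * y'⁻¹ := by group
  -- step 3
  set f : C →* G := q.comp C.subtype with hf
  have e3 : ∀ u : G, ∑ z : P, (if q z = u ∧ g * z = z * g then (1 : ℂ) else 0) =
      Nat.card f.ker * if u ∈ S then (1 : ℂ) else 0 := by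
    intro u
    have h1 := sum_fib (fun z : C => f z) f.ker (fun y y' => by
      rw [MonoidHom.mem_ker, map_mul, map_inv, inv_mul_eq_one]) (fun t => if t = u then (1 : ℂ) else 0)
    have h2 : ∀ t : G, t ∈ Set.range (fun z : C => f z) ↔ t ∈ S := by
      intro t
      rw [hS, Subgroup.mem_map]
      constructor
      · rintro ⟨z, rfl⟩
        exact ⟨z, z.2, rfl⟩
      · rintro ⟨z, hz, rfl⟩
        exact ⟨⟨z, hz⟩, rfl⟩
    have h3 : (∑ t : G, if t ∈ Set.range (fun z : C => f z) then
        (if t = u then (1 : ℂ) else 0) else 0) = if u ∈ S then (1 : ℂ) else 0 := by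
      rw [Finset.sum_eq_single u]
      · rw [if_pos rfl]
        simp only [h2]
      · intro t _ ht
        rw [if_neg ht, ite_self]
      · intro h4
        exact absurd (Finset.mem_univ u) h4
    rw [h3] at h1
    have h5 : ∑ z : C, (if f z = u then (1 : ℂ) else 0) =
        ∑ z ∈ Finset.univ.filter (fun z : P => z ∈ C), if q z = u then (1 : ℂ) else 0 := by
      rw [Finset.sum_subtype (Finset.univ.filter fun z : P => z ∈ C) (p := fun z => z ∈ C)
        (fun z => by simp)]
      rfl
    rw [← h1, h5, Finset.sum_filter]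
    refine Finset.sum_congr rfl fun z _ => ?_
    rw [← hmC]
    by_cases h4 : z ∈ C
    · rw [if_pos h4]
      simp only [h4, and_true]
    · rw [if_neg h4, if_neg fun h5 => h4 h5.2]
  have e4 : ∀ y : P, (∑ x' : P, if q x' = x ∧ (y * g * y⁻¹) * x' = x' * (y * g * y⁻¹) then
      (1 : ℂ) else 0) = Nat.card f.ker * if (q y)⁻¹ * x * q y ∈ S then (1 : ℂ) else 0 := by
    intro y
    rw [← e3, ← Equiv.sum_comp (MulAut.conj y).toEquiv]
    refine Finset.sum_congr rfl fun z _ => ?_
    have h1 : (q (y * z * y⁻¹) = x ∧ y * g * y⁻¹ * (y * z * y⁻¹) = y * z * y⁻¹ * (y * g * y⁻¹)) ↔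
        (q z = (q y)⁻¹ * x * q y ∧ g * z = z * g) := by
      refine and_congr ?_ ?_
      · rw [map_mul, map_mul, map_inv]
        constructor
        · rintro rfl
          group
        · intro h2
          rw [h2]
          group
      · constructor
        · intro h2
          have h3 : y * (g * z) * y⁻¹ = y * (z * g) * y⁻¹ := by
            calc y * (g * z) * y⁻¹ = y * g * y⁻¹ * (y * z * y⁻¹) := by group
              _ = y * z * y⁻¹ * (y * g * y⁻¹) := h2
              _ = y * (z * g) * y⁻¹ := by group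
          exact mul_left_cancel (mul_right_cancel h3)
        · intro h2
          calc y * g * y⁻¹ * (y * z * y⁻¹) = y * (g * z) * y⁻¹ := by group
            _ = y * (z * g) * y⁻¹ := by rw [h2]
            _ = y * z * y⁻¹ * (y * g * y⁻¹) := by group
    show (if q (y * z * y⁻¹) = x ∧ y * g * y⁻¹ * (y * z * y⁻¹) = y * z * y⁻¹ * (y * g * y⁻¹)
      then (1 : ℂ) else 0) = _
    simp only [h1]
  -- step 4
  have e5 : ∑ y : P, (if (q y)⁻¹ * x * q y ∈ S then (1 : ℂ) else 0) =
      Nat.card q.ker * ∑ t : G, if t⁻¹ * x * t ∈ S then (1 : ℂ) else 0 := by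
    rw [sum_fib (fun y : P => q y) q.ker (fun y y' => by
      rw [MonoidHom.mem_ker, map_mul, map_inv, inv_mul_eq_one])
      (fun t => if t⁻¹ * x * t ∈ S then (1 : ℂ) else 0)]
    congr 1
    refine Finset.sum_congr rfl fun t _ => ?_
    rw [if_pos]
    exact hq t
  have e6 : ∑ t : G, (if t⁻¹ * x * t ∈ S then (1 : ℂ) else 0) =
      Nat.card S * (H77.PT.fx S x : ℂ) := by
    have h1 := sum_fib (fun t : G => (t : G ⧸ S)) S (fun y y' => QuotientGroup.eq)
      (fun z : G ⧸ S => if x • z = z then (1 : ℂ) else 0)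
    have h2 : ∀ t : G, t⁻¹ * x * t ∈ S ↔ x • (t : G ⧸ S) = (t : G ⧸ S) := by
      intro t
      rw [eq_comm (a := x • (t : G ⧸ S)), MulAction.Quotient.smul_coe, QuotientGroup.eq,
        smul_eq_mul, mul_assoc]
    simp only [h2]
    rw [h1]
    congr 1
    refine (Finset.sum_congr rfl fun z _ => if_pos (QuotientGroup.mk_surjective z)).trans ?_
    rw [Finset.sum_boole]
    unfold H77.PT.fx
    push_cast
    rw [Nat.card_eq_fintype_card, Fintype.card_subtype]
  -- step 5
  have e7 : (Nat.card C : ℂ) = Nat.card f.ker * Nat.card S := by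
    have h1 := Subgroup.card_mul_index f.ker
    rw [Subgroup.index_ker] at h1
    have h2 : f.range = S := by
      rw [hf, MonoidHom.range_comp, Subgroup.range_subtype]
    rw [h2] at h1
    exact_mod_cast h1.symm
  rw [Finset.sum_congr rfl fun y _ => e4 y, ← Finset.mul_sum, e5, e6, e7] at e2
  have hk : (Nat.card q.ker : ℂ) ≠ 0 := by exact_mod_cast Nat.card_pos.ne'
  have hk2 : (Nat.card f.ker : ℂ) ≠ 0 := by exact_mod_cast Nat.card_pos.ne'
  have hk3 : (Nat.card S : ℂ) ≠ 0 := by exact_mod_cast Nat.card_pos.ne'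
  have e8 : (Nat.card f.ker : ℂ) * Nat.card S * Nat.card q.ker * (H77.PT.fx S x : ℂ) =
      (Nat.card f.ker : ℂ) * Nat.card S * Nat.card q.ker * Vg q b g 1 x := by
    linear_combination e2
  exact (mul_left_cancel₀ (mul_ne_zero (mul_ne_zero hk2 hk3) hk) e8).symm

end H88.E2
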