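import Pool.Agent.H88.E2.Gra
import Pool.Agent.H19.A2.Jr

/-!
# [H88 E2 JRZ] the phase is zero for a base homomorphism unramified outside `S0` (100 lines)

`φ₁ : Γ →* P` of finite type, `φ₁ (L.t v) = 1` for all `v ∉ S0` (`Unz L ∅ φ₁`), `rG ∘ q = rP`, `rG` injective, `a : S0 → rP.ker`. `jr_zero`: `JR D Q I b w (cjf D rP φ₁ a) (q ∘ φ₁) = 0`.

PROOF. `Ψ = pl2 b φ₁`. `d2 Ψ = pl3 w (q.comp φ₁)` (`d2_pl2`, `cob`). For `v ∈ S0`, `a = a ⟨v, _⟩ ∈ rP.ker`, so `q a = 1` (`rG (q a) = rP a = 1 = rG 1`, injective). Put `η v σ = - (b a (φ₁ σ) - b (a * φ₁ σ * a⁻¹) a)` or with the other sign, so that for `x = φ₁ σ`, `y = φ₁ τ`: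
 `b (a x a⁻¹) (a y a⁻¹) = b x y - d1 (η v) σ τ` : with `f x = b a x - b (a x a⁻¹) a` the combination `d2 b a x y - d2 b (a x a⁻¹) a y + d2 b (a x a⁻¹) (a y a⁻¹) a` gives
 `b (a x a⁻¹) (a y a⁻¹) - b x y = ± d1 f x y + (± hc (d2 b) a x y)`, and all three values of `d2 b` are `0`: `d2 b` is `w (q _) (q _) (q _)` and one argument is `q a = 1` (`Nr3`). (Check the sign by expanding; `abel` after rewriting the products with `a x a⁻¹ a = a x` etc., see the proof of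
 `br_conj` in H19/NF/Coc.) `η v = fun _ => 0` for `v ∉ S0`. `Lev (η v)`: `φ₁` has finite type (`H38.ML.FT`): `η v` factors through `φ₁` (look for a lemma `lev_pl`, `Lev` of a composition, in H19/A2/Chg2, Lif2, H24, H19/ST).
 So `(pl3 w (q ∘ φ₁), rs D Q fun v => pl2 b (cjf v)) = (d2 Ψ, rs D Q fun v σ τ => Ψ σ τ - d1 (η v) σ τ)` (`rs` only looks at `v ∈ S0`; `cjf` for `v ∈ S0` is `conj a ∘ φ₁`), and `hI Ψ η (lfk_pl2 ..)` gives `toAddCircle (TS1 L Fr Ψ)`, which is `0` by `ts1_pl` with `T = ∅`.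
-/

set_option autoImplicit false
set_option linter.dupNamespace false

open scoped NumberField
open IsDedekindDomain
open scoped Classical

noncomputable section

namespace H88.E2

open H63.MA H38.ML H38.BB H38.BG H57.PC H57.BRA H77.PC3 H77.WD Pool.Agent.H19.NF Pool.Agent.H19.AB
  H35.CF H86.AP H77.WE Pool.Agent.H19.A2

variable {K : Type} [Field K] [NumberField K] {Ω : Type} [Field Ω] [Algebra K Ω] {p m k l : ℕ}
  {ζ : K}

theorem jr_zero [NeZero (p ^ m)] {D : RD0 K p ζ} {L : LDs D Ω} {Q : DP K Ω} {Fr : FR L}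
    {I : ((Gal(Ω/K) → Gal(Ω/K) → Gal(Ω/K) → ZMod (p ^ m)) ×
      (Pl K → Gal(Ω/K) → Gal(Ω/K) → ZMod (p ^ m))) →+ AddCircle (1 : ℝ)}
    (hI : FnR p k m D L Q Fr I) {P G Qg : Type} [Group P] [Finite P] [Group G] [Group Qg]
    (hP : ∀ x : P, x ^ p ^ k = 1) {rP : P →* Qg} {q : P →* G} {rG : G →* Qg}
    (hr : rG.comp q = rP) (hi : Function.Injective rG) {b : P → P → ZMod (p ^ m)}
    {w : G → G → G → ZMod (p ^ m)} (hbw : Sta p m l q b w) {φ₁ : Gal(Ω/K) →* P}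
    (h₁ : Unz L ∅ φ₁) (a : {v // v ∈ D.S0} → rP.ker) :
    JR D Q I b w (cjf D rP φ₁ a) (q.comp φ₁) = 0 := by
  have hq1 : ∀ (v : Pl K) (h : v ∈ D.S0), q (a ⟨v, h⟩ : P) = 1 := by
    intro v h
    apply hi
    rw [map_one]
    have h0 : ∀ x : P, rG (q x) = rP x := fun x => DFunLike.congr_fun hr x
    rw [h0]
    exact MonoidHom.mem_ker.1 (a ⟨v, h⟩).2
  have key : ∀ g : P, q g = 1 → ∀ x y : P, b (g * x * g⁻¹) (g * y * g⁻¹) =
      b x y - d1 (fun x => b g x - b (g * x * g⁻¹) g) x y := by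
    intro g hg x y
    have e1 : d2 b g x y = 0 := by rw [hbw.cob, hg, hbw.nw.l]
    have e2 : d2 b (g * x * g⁻¹) g y = 0 := by rw [hbw.cob, hg, hbw.nw.m]
    have e3 : d2 b (g * x * g⁻¹) (g * y * g⁻¹) g = 0 := by rw [hbw.cob, hg, hbw.nw.r]
    have f1 : ∀ u : P, g * u * g⁻¹ * g = g * u := fun u => by group
    have f2 : ∀ u v : P, g * u * g⁻¹ * (g * v * g⁻¹) = g * (u * v) * g⁻¹ := fun u v => by group
    unfold d2 at e1 e2 e3
    rw [f1] at e2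
    rw [f1, f2] at e3
    unfold d1
    beta_reduce
    linear_combination -e1 + e2 - e3
  have h := hI (pl2 b φ₁) (fun v σ => if h : v ∈ D.S0 then
      b (a ⟨v, h⟩ : P) (φ₁ σ) - b ((a ⟨v, h⟩ : P) * φ₁ σ * (a ⟨v, h⟩ : P)⁻¹) (a ⟨v, h⟩ : P)
      else 0) (lfk_pl2 (tmk_exp hP φ₁) h₁.1 hbw.nb) (by
    intro v
    by_cases hv : v ∈ D.S0
    · simp only [dif_pos hv]
      obtain ⟨F, hF, hFk⟩ := h₁.1
      refine ⟨F, hF, fun σ u hu => ?_⟩
      have h1 : φ₁ u = 1 := MonoidHom.mem_ker.1 (hFk hu)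
      beta_reduce
      rw [map_mul, h1, mul_one]
    · simp only [dif_neg hv]
      exact lev_const 0)
  have h2 : (pl3 w (q.comp φ₁), rs D Q fun v => pl2 b (cjf D rP φ₁ a v)) =
      (d2 (pl2 b φ₁), rs D Q fun v σ τ => pl2 b φ₁ σ τ - d1 (fun σ => if h : v ∈ D.S0 then
      b (a ⟨v, h⟩ : P) (φ₁ σ) - b ((a ⟨v, h⟩ : P) * φ₁ σ * (a ⟨v, h⟩ : P)⁻¹) (a ⟨v, h⟩ : P)
      else 0) σ τ) := by
    refine Prod.ext ?_ ?_
    · show pl3 w (q.comp φ₁) = d2 (pl2 b φ₁)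
      rw [d2_pl2]
      funext σ τ υ
      exact (hbw.cob _ _ _).symm
    · funext v σ τ
      dsimp only
      unfold rs
      split_ifs with h1
      · have hv := h1.1
        have e1 : ∀ σ, cjf D rP φ₁ a v σ = (a ⟨v, hv⟩ : P) * φ₁ σ * (a ⟨v, hv⟩ : P)⁻¹ := by
          intro σ
          unfold cjf
          rw [dif_pos hv]
          rfl
        show b (cjf D rP φ₁ a v σ) (cjf D rP φ₁ a v τ) = b (φ₁ σ) (φ₁ τ) - d1 _ σ τ
        rw [e1, e1, key _ (hq1 v hv)]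
        simp only [dif_pos hv, d1, map_mul]
      · rfl
  unfold JR
  rw [h2, h, ts1_pl L Fr hbw.nb φ₁ ∅ fun v hv _ => h₁.2 v hv (Finset.notMem_empty v),
    Finset.sum_empty, map_zero]

end H88.E2
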