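import Pool.Agent.H88.E2.Bre
import Pool.Agent.H88.E2.Grb
import Pool.Agent.H88.E2.Jrz
import Pool.Agent.H55.E2.Ana
import Pool.Agent.H86.A2.Gen
import Pool.Agent.H86.A2.Syf
import Pool.Agent.H35.AC.Pl

/-!
# H88-E2-END: the end of the induction of AP2 (`rG` injective; MP_b39724_nt, all classes, stage 2, think 1616)

If the bracket of some label is not trivial on its centraliser, `BB2` is negligible (`mnz`, `eng2`). Otherwise the local weights are permutation characters (`vg_perm`), and `ss_eq` gives `SS` as a sum over the homomorphisms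
ramified in `E` only of bounded coefficients times `wS`; `e2_lim` and `e2_ub` (helper55) give the asymptotic formula and the upper bound, `jr_zero` the positivity.
-/

set_option autoImplicit false
set_option linter.dupNamespace false

open scoped NumberField ComplexConjugate
open IsDedekindDomain Filter Topology
open scoped Classical

noncomputable section

namespace H88.E2

open H63.MA H38.ML H38.BB H38.BG H57.PC H57.BRA H57.GP H77.PC3 H77.WD Pool.Agent.H19.NF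
  Pool.Agent.H19.AB H35.CF H86.AP H86.A2 H77.WE Pool.Agent.H19.A2

/-- powers of `1 + log` are small -/
theorem log_pow {δ : ℝ} (hδ : 0 < δ) (A : ℕ) :
    ∃ κ : ℝ, 1 ≤ κ ∧ ∀ x : ℝ, 1 ≤ x → (1 + Real.log x) ^ A ≤ κ * x ^ δ := by
  have hA : (0 : ℝ) < (A : ℝ) + 1 := by positivity
  set d : ℝ := δ / ((A : ℝ) + 1) with hd
  have hd0 : 0 < d := div_pos hδ hA
  refine ⟨(1 + 1 / d) ^ A, one_le_pow₀ (by have := one_div_pos.2 hd0; linarith), fun x hx => ?_⟩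
  have h1 : Real.log x ≤ x ^ d / d := Real.log_le_rpow_div (by linarith) hd0
  have h2 : (1 : ℝ) ≤ x ^ d := Real.one_le_rpow hx hd0.le
  have h3 : 0 ≤ Real.log x := Real.log_nonneg hx
  have h4 : 1 + Real.log x ≤ (1 + 1 / d) * x ^ d := by
    have h5 : x ^ d / d = 1 / d * x ^ d := by ring
    rw [h5] at h1
    linarith
  calc (1 + Real.log x) ^ A ≤ ((1 + 1 / d) * x ^ d) ^ A :=
        pow_le_pow_left₀ (by linarith) h4 A
    _ = (1 + 1 / d) ^ A * (x ^ d) ^ A := mul_pow _ _ _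
    _ ≤ (1 + 1 / d) ^ A * x ^ δ := by
        refine mul_le_mul_of_nonneg_left ?_ (by positivity)
        rw [← Real.rpow_natCast, ← Real.rpow_mul (by linarith)]
        refine Real.rpow_le_rpow_of_exponent_le hx ?_
        rw [hd, div_mul_eq_mul_div, div_le_iff₀ hA]
        nlinarith

section main

variable {p m k l N : ℕ} [NeZero N] {K : IntermediateField ℚ QBar} [NumberField K] {ζ : K}
  {P G Qg : Type} [Group P] [Group G] [Group Qg]

/-- the coefficients -/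
def cw [Fintype P] [NeZero (p ^ m)] {D : RD0 K p ζ} (L : LDs D QBar) (Q : DP K QBar) (Fr : FR L)
    (I : ((Gal(QBar/K) → Gal(QBar/K) → Gal(QBar/K) → ZMod (p ^ m)) ×
      (Pl K → Gal(QBar/K) → Gal(QBar/K) → ZMod (p ^ m))) →+ AddCircle (1 : ℝ))
    (rP : P →* Qg) (rG : G →* Qg) (wt : (Gal(QBar/K) →* Qg) → ℂ) (φ₁ : Gal(QBar/K) →* P)
    (q : P →* G) (b : P → P → ZMod (p ^ m)) (w : G → G → G → ZMod (p ^ m))
    (E : Finset (Pl K)) (e : Pl K → P) (φ : Gal(QBar/K) →* G) : ℂ :=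
  wt (rG.comp φ) * KA D Q I rP φ₁ b w φ *
    ∏ v ∈ E, Vg q b (e v) (φ (L.t v)) (φ (Fr.F v))

theorem cw_norm [Fintype P] [NeZero (p ^ m)] {D : RD0 K p ζ} (L : LDs D QBar) (Q : DP K QBar)
    (Fr : FR L)
    (I : ((Gal(QBar/K) → Gal(QBar/K) → Gal(QBar/K) → ZMod (p ^ m)) ×
      (Pl K → Gal(QBar/K) → Gal(QBar/K) → ZMod (p ^ m))) →+ AddCircle (1 : ℝ))
    (rP : P →* Qg) (rG : G →* Qg) {wt : (Gal(QBar/K) →* Qg) → ℂ} (hwt : ∀ ψ, ‖wt ψ‖ ≤ 1)
    (φ₁ : Gal(QBar/K) →* P)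
    {q : P →* G} (hq : Function.Surjective q) (b : P → P → ZMod (p ^ m))
    (w : G → G → G → ZMod (p ^ m))
    (E : Finset (Pl K)) (e : Pl K → P) (φ : Gal(QBar/K) →* G) :
    ‖cw L Q Fr I rP rG wt φ₁ q b w E e φ‖ ≤
      Fintype.card ({v // v ∈ D.S0} → rP.ker) * (Nat.card P : ℝ) ^ E.card := by
  unfold cw
  rw [norm_mul, norm_mul, norm_prod]
  calc ‖wt (rG.comp φ)‖ * ‖KA D Q I rP φ₁ b w φ‖ *
        ∏ v ∈ E, ‖Vg q b (e v) (φ (L.t v)) (φ (Fr.F v))‖ ≤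
        1 * (Fintype.card ({v // v ∈ D.S0} → rP.ker) : ℝ) * ∏ _v ∈ E, (Nat.card P : ℝ) := by
        refine mul_le_mul (mul_le_mul (hwt _) (ka_norm _ _ _ _ _ _ _ _) (norm_nonneg _)
          zero_le_one) (Finset.prod_le_prod (fun _ _ => norm_nonneg _) fun v _ =>
            vg_norm hq _ _ _ _) (Finset.prod_nonneg fun _ _ => norm_nonneg _) (by positivity)
    _ = _ := by rw [one_mul, Finset.prod_const]

/-- the sum over the configurations, if all brackets are trivial -/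
theorem ss_ws [Fintype P] [Finite G] [NeZero (p ^ m)] (hp : p.Prime)
    (hζ : IsPrimitiveRoot ζ p) {D : RD0 K p ζ} (L : LDs D QBar) (Q : DP K QBar) (Fr : FR L)
    (I : ((Gal(QBar/K) → Gal(QBar/K) → Gal(QBar/K) → ZMod (p ^ m)) ×
      (Pl K → Gal(QBar/K) → Gal(QBar/K) → ZMod (p ^ m))) →+ AddCircle (1 : ℝ)) (c : CL p N P)
    {rP : P →* Qg} (hc : ∀ i, rP (c.g i) = 1) {q : P →* G} (hq : Function.Surjective q)
    (hG : ∀ x : G, x ^ p ^ k = 1)
    {rG : G →* Qg} (hr : rG.comp q = rP)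
    (hi : Function.Injective rG) (wt : (Gal(QBar/K) →* Qg) → ℂ) (φ₁ : Gal(QBar/K) →* P)
    {b : P → P → ZMod (p ^ m)} {w : G → G → G → ZMod (p ^ m)} (hbw : Sta p m l q b w)
    (ht : ∀ j, Tj b (c.g j)) (E : Finset (Pl K))
    (e : Pl K → P) (M : ℕ) (T₀ Y : ℝ) :
    SS c (BB2 L Q Fr I rP rG wt φ₁ q b w) D E e M T₀ Y =
      ∑ φ ∈ XS2 L Q (fun _ => q.comp φ₁) E, cw L Q Fr I rP rG wt φ₁ q b w E e φ *
        (wS D N M T₀ Y E (fun j v => H77.PT.fx ((Subgroup.centralizer {c.g j}).map q)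
          (φ (Fr.F v))) : ℂ) := by
  rw [ss_eq hp hζ L Q Fr I c hc hG hr hi]
  refine Finset.sum_congr rfl fun φ _ => ?_
  unfold cw wS
  congr 1
  push_cast
  refine Finset.sum_congr rfl fun f _ => Finset.prod_congr rfl fun v _ => ?_
  exact vg_perm hq hbw (ker_q hr hi (hc _)) (ht _) _

theorem cw_onto [Fintype P] [NeZero (p ^ m)] {D : RD0 K p ζ} {L : LDs D QBar} {Q : DP K QBar}
    {Fr : FR L}
    {I : ((Gal(QBar/K) → Gal(QBar/K) → Gal(QBar/K) → ZMod (p ^ m)) ×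
      (Pl K → Gal(QBar/K) → Gal(QBar/K) → ZMod (p ^ m))) →+ AddCircle (1 : ℝ)}
    {rP : P →* Qg} {rG : G →* Qg} (hi : Function.Injective rG) {wt : (Gal(QBar/K) →* Qg) → ℂ}
    (hwt' : ∀ ψ, wt ψ ≠ 0 → Function.Surjective ψ)
    {φ₁ : Gal(QBar/K) →* P} {q : P →* G} {b : P → P → ZMod (p ^ m)}
    {w : G → G → G → ZMod (p ^ m)} {E : Finset (Pl K)} {e : Pl K → P} {φ : Gal(QBar/K) →* G}
    (h : cw L Q Fr I rP rG wt φ₁ q b w E e φ ≠ 0) : Function.Surjective φ := by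
  have h2 : Function.Surjective (rG.comp φ) := hwt' _ (left_ne_zero_of_mul (left_ne_zero_of_mul h))
  intro x
  obtain ⟨σ, hσ⟩ := h2 (rG x)
  exact ⟨σ, hi hσ⟩

/-- the upper bound -/
theorem end_upp [Fintype P] [Finite G] [NeZero (p ^ m)] (hp : p.Prime) (hM1 : MOne p K)
    (hζ : IsPrimitiveRoot ζ p) {D : RD0 K p ζ} (L : LDs D QBar) (Q : DP K QBar) (Fr : FR L)
    (I : ((Gal(QBar/K) → Gal(QBar/K) → Gal(QBar/K) → ZMod (p ^ m)) ×
      (Pl K → Gal(QBar/K) → Gal(QBar/K) → ZMod (p ^ m))) →+ AddCircle (1 : ℝ)) (c : CL p N P)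
    {rP : P →* Qg} (hc : ∀ i, rP (c.g i) = 1) {q : P →* G} (hq : Function.Surjective q)
    (hG : ∀ x : G, x ^ p ^ k = 1)
    {rG : G →* Qg} (hr : rG.comp q = rP)
    (hi : Function.Injective rG) (wt : (Gal(QBar/K) →* Qg) → ℂ) (hwt : ∀ ψ, ‖wt ψ‖ ≤ 1)
    (hwt' : ∀ ψ, wt ψ ≠ 0 → Function.Surjective ψ) (φ₁ : Gal(QBar/K) →* P)
    {b : P → P → ZMod (p ^ m)} {w : G → G → G → ZMod (p ^ m)} (hbw : Sta p m l q b w)
    (ht : ∀ j, Tj b (c.g j)) :
    Upp2 c D (BB2 L Q Fr I rP rG wt φ₁ q b w) := by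
  have hGp : IsPGroup p G := fun x => ⟨k, hG x⟩
  obtain ⟨C₁, A, hC₁, hub⟩ := H55.E2.e2_ub hp hM1 hζ D L Fr hGp
    (fun j => (Subgroup.centralizer {c.g j}).map q)
  obtain ⟨C₂, hC₂, hhs⟩ := H1.EN2.hs2_card (Ω := QBar) hp hζ L (Nat.card G)
  set A₀ : ℝ := (Fintype.card ({v // v ∈ D.S0} → rP.ker) : ℝ) with hA₀
  have hA0 : 0 ≤ A₀ := Nat.cast_nonneg _
  have hP1 : (1 : ℝ) ≤ Nat.card P := by exact_mod_cast Nat.card_pos
  intro ε η A₁ hε _ hη
  obtain ⟨κ₁, hκ₁, hlog⟩ := log_pow (half_pos hη) A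
  obtain ⟨κ₂, hκ₂, hpow⟩ := H35.AC.cst_pow K (C := C₂ * Nat.card P) (δ := η / 2)
    (one_le_mul_of_one_le_of_one_le hC₂ hP1) (half_pos hη)
  refine ⟨C₂ * A₀ * C₁ * κ₁ * κ₂, 3, by positivity, fun Y hY M _ E e hE hn => ?_⟩
  set W : ℝ := Y * Real.log Y ^ (N - 1) with hW
  have hlY : 0 ≤ Real.log Y := Real.log_nonneg (by linarith)
  have hW0 : 0 ≤ W := mul_nonneg (by linarith) (pow_nonneg hlY _)
  have hnE := one_le_nr E
  have hlE : 0 ≤ Real.log (nr E) := Real.log_nonneg hnE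
  rw [ss_ws hp hζ L Q Fr I c hc hq hG hr hi wt φ₁ hbw ht]
  have h1 : ∀ φ ∈ XS2 L Q (fun _ => q.comp φ₁) E, ‖cw L Q Fr I rP rG wt φ₁ q b w E e φ *
      (wS D N M (Real.exp (Real.log Y ^ ε)) Y E (fun j v =>
        H77.PT.fx ((Subgroup.centralizer {c.g j}).map q) (φ (Fr.F v))) : ℂ)‖ ≤
      A₀ * (Nat.card P : ℝ) ^ E.card * (C₁ * (1 + Real.log (nr E)) ^ A * W) := by
    intro φ hφ
    rw [mem_xs2 hp hζ L Q hG] at hφ
    by_cases h0 : cw L Q Fr I rP rG wt φ₁ q b w E e φ = 0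
    · rw [h0, zero_mul, norm_zero]
      positivity
    · have hs := cw_onto hi hwt' h0
      have hw0 : 0 ≤ wS D N M (Real.exp (Real.log Y ^ ε)) Y E (fun j v =>
          H77.PT.fx ((Subgroup.centralizer {c.g j}).map q) (φ (Fr.F v))) :=
        Finset.sum_nonneg fun f _ => Finset.prod_nonneg fun v _ => Nat.cast_nonneg _
      rw [norm_mul, Complex.norm_real, Real.norm_of_nonneg hw0]
      exact mul_le_mul (cw_norm L Q Fr I rP rG hwt φ₁ hq b w E e φ)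
        (hub φ hφ.1.1 hs E hφ.1 M _ Y hY) hw0 (by positivity)
  have h2 : ((XS2 L Q (fun _ => q.comp φ₁) E).card : ℝ) ≤ C₂ ^ (E.card + 1) := by
    obtain ⟨h3, h4⟩ := hhs G le_rfl hGp E
    refine le_trans ?_ h3
    exact_mod_cast Finset.card_le_card fun φ hφ => by
      rw [mem_xs2 hp hζ L Q hG] at hφ
      rw [h4]
      exact hφ.1
  refine (norm_sum_le _ _).trans ((Finset.sum_le_sum h1).trans ?_)
  rw [Finset.sum_const, nsmul_eq_mul]
  calc ((XS2 L Q (fun _ => q.comp φ₁) E).card : ℝ) *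
        (A₀ * (Nat.card P : ℝ) ^ E.card * (C₁ * (1 + Real.log (nr E)) ^ A * W)) ≤
        C₂ ^ (E.card + 1) *
        (A₀ * (Nat.card P : ℝ) ^ E.card * (C₁ * (1 + Real.log (nr E)) ^ A * W)) :=
        mul_le_mul_of_nonneg_right h2 (by positivity)
    _ = C₂ * A₀ * C₁ * (C₂ * Nat.card P) ^ E.card * (1 + Real.log (nr E)) ^ A * W := by
        rw [mul_pow]
        ring
    _ ≤ C₂ * A₀ * C₁ * (κ₂ * nr E ^ (η / 2)) * (κ₁ * nr E ^ (η / 2)) * W := by
        refine mul_le_mul_of_nonneg_right ?_ hW0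
        refine mul_le_mul ?_ (hlog _ hnE) (by positivity) ?_
        · exact mul_le_mul_of_nonneg_left (hpow E) (by positivity)
        · positivity
    _ = C₂ * A₀ * C₁ * κ₁ * κ₂ * (nr E ^ (η / 2) * nr E ^ (η / 2)) * W := by ring
    _ = C₂ * A₀ * C₁ * κ₁ * κ₂ * nr E ^ η * W := by
        rw [← Real.rpow_add (by linarith), add_halves]

/-- the end of the induction -/
theorem end2 [NeZero (p ^ m)] {k₀ : ℕ} (hp : p.Prime) (hM1 : MOne p K)
    (hζ : IsPrimitiveRoot ζ p) (hk₀ : k₀ ≤ k) (D : RD0 K p ζ)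
    (hGP : GPR D QBar (p ^ k)) (L : LDs D QBar) (Q : DP K QBar) (Fr : FR L)
    (I : ((Gal(QBar/K) → Gal(QBar/K) → Gal(QBar/K) → ZMod (p ^ m)) ×
      (Pl K → Gal(QBar/K) → Gal(QBar/K) → ZMod (p ^ m))) →+ AddCircle (1 : ℝ))
    (hI : FnR p k m D L Q Fr I) [Fintype P] [Fintype G] (hP : ∀ x : P, x ^ p ^ k₀ = 1)
    (c : CL p N P) (rP : P →* Qg) (hcT : ∀ i, rP (c.g i) = 1)
    (wt : (Gal(QBar/K) →* Qg) → ℂ) (hwt : ∀ ψ, ‖wt ψ‖ ≤ 1)
    (hwt' : ∀ ψ, wt ψ ≠ 0 → Function.Surjective ψ)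
    (φ₁ : Gal(QBar/K) →* P) (h₁ : H38.ML.FT φ₁) (q : P →* G) (hq : Function.Surjective q)
    (rG : G →* Qg) (hr : rG.comp q = rP) (hi : Function.Injective rG)
    (b : P → P → ZMod (p ^ m)) (w : G → G → G → ZMod (p ^ m)) (hbw : Sta p m l q b w) :
    ∃ lim : ℂ, Asy2 c D (BB2 L Q Fr I rP rG wt φ₁ q b w) lim ∧
      Upp2 c D (BB2 L Q Fr I rP rG wt φ₁ q b w) ∧
      (Ps L rP wt φ₁ → ∃ s : ℝ, lim = s ∧ 0 ≤ s ∧ (b = 0 → w = 0 → 0 < s)) := by
  have hPk : ∀ x : P, x ^ p ^ k = 1 := pow_mono hk₀ hP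
  have hG : ∀ x : G, x ^ p ^ k = 1 := fun x => pow_surj hq hPk x
  have hGp : IsPGroup p G := fun x => ⟨k, hG x⟩
  by_cases ht : ∀ j, Tj b (c.g j)
  · have hex : ∀ φ : Gal(QBar/K) →* G, ∃ lf : ℝ, (Function.Surjective φ → Unz L ∅ φ → 0 < lf) ∧
        (φ ∈ XS2 L Q (fun _ => q.comp φ₁) ∅ → ∀ (M : ℕ) (ε : ℝ), 0 < ε → ε < 1 →
        Tendsto (fun Y : ℝ => cw L Q Fr I rP rG wt φ₁ q b w ∅ (fun _ => 1) φ *
          (wS D N M (Real.exp (Real.log Y ^ ε)) Y ∅ (fun j v =>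
          H77.PT.fx ((Subgroup.centralizer {c.g j}).map q) (φ (Fr.F v))) : ℂ) /
          ((Y * Real.log Y ^ (N - 1) : ℝ) : ℂ)) atTop
          (𝓝 (cw L Q Fr I rP rG wt φ₁ q b w ∅ (fun _ => 1) φ * (lf : ℂ)))) := by
      intro φ
      by_cases hφ : Function.Surjective φ ∧ Unz L ∅ φ
      · obtain ⟨lf, hlf, hlim⟩ := H55.E2.e2_lim hp hM1 hζ D L Fr hGp
          (fun j => (Subgroup.centralizer {c.g j}).map q) φ hφ.2.1 hφ.1 hφ.2
        refine ⟨lf, fun _ _ => hlf, fun _ M ε hε hε1 => ?_⟩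
        have h1 : Tendsto (fun Y : ℝ => ((wS D N M (Real.exp (Real.log Y ^ ε)) Y ∅
            (fun j v => H77.PT.fx ((Subgroup.centralizer {c.g j}).map q) (φ (Fr.F v))) /
              (Y * Real.log Y ^ (N - 1)) : ℝ) : ℂ)) atTop (𝓝 (lf : ℂ)) :=
          (Complex.continuous_ofReal.tendsto lf).comp (hlim M ε hε hε1)
        refine (h1.const_mul (cw L Q Fr I rP rG wt φ₁ q b w ∅ (fun _ => 1) φ)).congr fun Y => ?_
        rw [Complex.ofReal_div, mul_div_assoc]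
      · refine ⟨0, fun h1 h2 => absurd ⟨h1, h2⟩ hφ, fun h1 M ε _ _ => ?_⟩
        rw [mem_xs2 hp hζ L Q hG] at h1
        have h0 : cw L Q Fr I rP rG wt φ₁ q b w ∅ (fun _ => 1) φ = 0 := by
          by_contra h2
          exact hφ ⟨cw_onto hi hwt' h2, h1.1⟩
        simp only [h0, zero_mul, zero_div]
        exact tendsto_const_nhds
    choose lf hpos hlf using hex
    refine ⟨∑ φ ∈ XS2 L Q (fun _ => q.comp φ₁) ∅,
      cw L Q Fr I rP rG wt φ₁ q b w ∅ (fun _ => 1) φ * (lf φ : ℂ), ?_,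
      end_upp hp hM1 hζ L Q Fr I c hcT hq hG hr hi wt hwt hwt' φ₁ hbw ht, fun hps => ?_⟩
    · intro ε hε hε1 M _
      refine (tendsto_finsetSum _ fun φ hφ => hlf φ hφ M ε hε hε1).congr fun Y => ?_
      rw [ss_ws hp hζ L Q Fr I c hcT hq hG hr hi wt φ₁ hbw ht, Finset.sum_div]
    · obtain ⟨g1, g2, g3⟩ := hps
      have hU : Unz L ∅ φ₁ := ⟨h₁, fun v hv _ => g2 v hv⟩
      have hU' : Unz L ∅ (q.comp φ₁) := by
        refine ⟨?_, fun v hv _ => ?_⟩
        · obtain ⟨F, hF, hFk⟩ := h₁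
          refine ⟨F, hF, fun σ hσ => MonoidHom.mem_ker.2 ?_⟩
          rw [MonoidHom.comp_apply, MonoidHom.mem_ker.1 (hFk hσ), map_one]
        · rw [MonoidHom.comp_apply, g2 v hv, map_one]
      have hmem : q.comp φ₁ ∈ XS2 L Q (fun _ => q.comp φ₁) ∅ := by
        rw [mem_xs2 hp hζ L Q hG]
        exact ⟨hU', fun _ _ _ _ => rfl⟩
      have hs : Function.Surjective (q.comp φ₁) := hq.comp g1
      have hcw : cw L Q Fr I rP rG wt φ₁ q b w ∅ (fun _ => 1) (q.comp φ₁) =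
          (Fintype.card ({v // v ∈ D.S0} → rP.ker) : ℂ) := by
        unfold cw KA
        rw [Finset.prod_empty, mul_one, ← MonoidHom.comp_assoc, hr, g3]
        simp only [jr_zero hI hPk hr hi hbw hU, if_true]
        rw [one_mul, Finset.sum_const, Finset.card_univ]
        have : ec 0 = 1 := by
          show ((AddCircle.toCircle (0 : AddCircle (1 : ℝ)) : Circle) : ℂ) = 1
          rw [AddCircle.toCircle_zero, Circle.coe_one]
        rw [this, nsmul_eq_mul, mul_one]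
      have hsum : ∑ φ ∈ XS2 L Q (fun _ => q.comp φ₁) ∅,
          cw L Q Fr I rP rG wt φ₁ q b w ∅ (fun _ => 1) φ * (lf φ : ℂ) =
          (Fintype.card ({v // v ∈ D.S0} → rP.ker) : ℂ) * (lf (q.comp φ₁) : ℂ) := by
        rw [Finset.sum_eq_single_of_mem _ hmem, hcw]
        intro φ _ hne
        have h2 : rG.comp φ ≠ rP.comp φ₁ := by
          intro h3
          refine hne (MonoidHom.ext fun σ => hi ?_)
          have h4 := DFunLike.congr_fun h3 σ
          rw [← hr] at h4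
          exact h4
        have h3 : wt (rG.comp φ) = 0 := by
          rw [g3]
          exact if_neg h2
        unfold cw
        rw [h3, zero_mul, zero_mul, zero_mul]
      have hpos' : 0 < (Fintype.card ({v // v ∈ D.S0} → rP.ker) : ℝ) * lf (q.comp φ₁) := by
        refine mul_pos ?_ (hpos _ hs hU')
        exact_mod_cast Fintype.card_pos
      refine ⟨(Fintype.card ({v // v ∈ D.S0} → rP.ker) : ℝ) * lf (q.comp φ₁), ?_, hpos'.le,
        fun _ _ => hpos'⟩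
      rw [hsum]
      push_cast
      rfl
  · push Not at ht
    obtain ⟨j₀, hj⟩ := ht
    have hsm := H1.EN2.eng2 hp hζ D hGP L Fr c j₀ _
      (mnz (k := k) hp hζ L Q Fr I c hcT hq hPk hr hi wt hwt hwt' φ₁ b w hbw j₀ hj)
    refine ⟨0, sm_asy2 hsm, sm_upp2 hsm, fun _ => ⟨0, by simp, le_rfl, fun hb _ => ?_⟩⟩
    exfalso
    refine hj fun x _ => ?_
    rw [hb]
    simp [br]

end main

end H88.E2
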