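import Pool.Agent.H88.E2.Gra
import Pool.Agent.H19.A2.Jr
import Pool.Agent.H1.EN2.En2

/-!
# H88-E2-BRE: the sum `BB2` for `rG` injective (end of AP2, MP_b39724_nt, all classes, stage 2)

`rG ∘ q = rP`, `rG` injective: the types at `S0` do not depend on the conjugating elements. `KA`: the sum of the phases. `bb_eq`: `BB2` as a sum over `XS2` for the type of `q ∘ φ₁`. `ss_eq`: the sum `SS` as a sum over
the homomorphisms ramified in `E` only, times the weighted sum over the configurations. `mnz`: if the bracket of some label is not trivial on its centraliser then `BB2` is negligible (`Mn2`).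
-/

set_option autoImplicit false
set_option linter.dupNamespace false

open scoped NumberField
open IsDedekindDomain
open scoped Classical

noncomputable section

namespace H88.E2

open H63.MA H38.ML H38.BB H38.BG H57.PC H57.BRA H57.GP H77.PC3 H77.WD Pool.Agent.H19.NF
  Pool.Agent.H19.AB H35.CF H86.AP H77.WE Pool.Agent.H19.A2

variable {K : Type} [Field K] [NumberField K] {Ω : Type} [Field Ω] [Algebra K Ω]
  {p m k l N : ℕ} {ζ : K} {P G Qg : Type} [Group P] [Group G] [Group Qg]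

/-- the sum of the phases -/
def KA [Fintype P] (D : RD0 K p ζ) (Q : DP K Ω)
    (I : ((Gal(Ω/K) → Gal(Ω/K) → Gal(Ω/K) → ZMod (p ^ m)) ×
      (Pl K → Gal(Ω/K) → Gal(Ω/K) → ZMod (p ^ m))) →+ AddCircle (1 : ℝ))
    (rP : P →* Qg) (φ₁ : Gal(Ω/K) →* P) (b : P → P → ZMod (p ^ m))
    (w : G → G → G → ZMod (p ^ m)) (φ : Gal(Ω/K) →* G) : ℂ :=
  ∑ a : {v // v ∈ D.S0} → rP.ker, ec (JR D Q I b w (cjf D rP φ₁ a) φ)

theorem ec_norm (x : AddCircle (1 : ℝ)) : ‖ec x‖ = 1 := by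
  show ‖((AddCircle.toCircle x : Circle) : ℂ)‖ = 1
  exact Circle.norm_coe _

theorem ka_norm [Fintype P] (D : RD0 K p ζ) (Q : DP K Ω)
    (I : ((Gal(Ω/K) → Gal(Ω/K) → Gal(Ω/K) → ZMod (p ^ m)) ×
      (Pl K → Gal(Ω/K) → Gal(Ω/K) → ZMod (p ^ m))) →+ AddCircle (1 : ℝ))
    (rP : P →* Qg) (φ₁ : Gal(Ω/K) →* P) (b : P → P → ZMod (p ^ m))
    (w : G → G → G → ZMod (p ^ m)) (φ : Gal(Ω/K) →* G) :
    ‖KA D Q I rP φ₁ b w φ‖ ≤ Fintype.card ({v // v ∈ D.S0} → rP.ker) := by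
  unfold KA
  refine (norm_sum_le _ _).trans ?_
  rw [Finset.sum_congr rfl fun a _ => ec_norm _, Finset.sum_const, Finset.card_univ, nsmul_eq_mul,
    mul_one]

theorem cj_q {D : RD0 K p ζ} {rP : P →* Qg} {q : P →* G} {rG : G →* Qg} (hr : rG.comp q = rP)
    (hi : Function.Injective rG) (φ₁ : Gal(Ω/K) →* P) (a : {v // v ∈ D.S0} → rP.ker) (v : Pl K)
    (σ : Gal(Ω/K)) : q (cjf D rP φ₁ a v σ) = q (φ₁ σ) := by
  unfold cjf
  split_ifs with h
  · have h1 : q (a ⟨v, h⟩ : P) = 1 := by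
      apply hi
      rw [map_one, ← MonoidHom.comp_apply, hr]
      exact (a ⟨v, h⟩).2
    show q ((a ⟨v, h⟩ : P) * φ₁ σ * (a ⟨v, h⟩ : P)⁻¹) = q (φ₁ σ)
    rw [map_mul, map_mul, map_inv, h1, one_mul, inv_one, mul_one]
  · rfl

theorem xs_q {D : RD0 K p ζ} (L : LDs D Ω) (Q : DP K Ω) {rP : P →* Qg} {q : P →* G}
    {rG : G →* Qg} (hr : rG.comp q = rP)
    (hi : Function.Injective rG) (φ₁ : Gal(Ω/K) →* P) (a : {v // v ∈ D.S0} → rP.ker)
    (T : Finset (Pl K)) :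
    XS2 L Q (fun v => q.comp (cjf D rP φ₁ a v)) T = XS2 L Q (fun _ => q.comp φ₁) T := by
  have h : XT2 L Q (fun v => q.comp (cjf D rP φ₁ a v)) T = XT2 L Q (fun _ => q.comp φ₁) T := by
    unfold XT2
    ext φ
    simp only [Set.mem_ofPred_eq, MonoidHom.comp_apply, cj_q hr hi]
  unfold XS2
  rw [h]

theorem bb_eq [Fintype P] [NeZero (p ^ m)] {D : RD0 K p ζ} (L : LDs D Ω) (Q : DP K Ω) (Fr : FR L)
    (I : ((Gal(Ω/K) → Gal(Ω/K) → Gal(Ω/K) → ZMod (p ^ m)) ×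
      (Pl K → Gal(Ω/K) → Gal(Ω/K) → ZMod (p ^ m))) →+ AddCircle (1 : ℝ))
    {rP : P →* Qg} {q : P →* G} {rG : G →* Qg} (hr : rG.comp q = rP)
    (hi : Function.Injective rG) (wt : (Gal(Ω/K) →* Qg) → ℂ) (φ₁ : Gal(Ω/K) →* P)
    (b : P → P → ZMod (p ^ m)) (w : G → G → G → ZMod (p ^ m)) (T : Finset (Pl K))
    (γ : Pl K → P) :
    BB2 L Q Fr I rP rG wt φ₁ q b w T γ = ∑ φ ∈ XS2 L Q (fun _ => q.comp φ₁) T,
      wt (rG.comp φ) * KA D Q I rP φ₁ b w φ *
        ∏ v ∈ T, Vg q b (γ v) (φ (L.t v)) (φ (Fr.F v)) := by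
  unfold BB2 B1 KA
  simp only [xs_q L Q hr hi]
  rw [Finset.sum_comm]
  refine Finset.sum_congr rfl fun φ _ => ?_
  rw [Finset.mul_sum, Finset.sum_mul]
  exact Finset.sum_congr rfl fun a _ => by ring

/-- the weight is zero at a place with nontrivial inertia -/
theorem vg_supp [Fintype P] [NeZero (p ^ m)] {q : P →* G} {b : P → P → ZMod (p ^ m)} {g : P}
    (hg : q g = 1) {s x : G} (h : Vg q b g s x ≠ 0) : s = 1 := by
  unfold Vg at h
  obtain ⟨σ, -, hσ⟩ := Finset.exists_ne_zero_of_sum_ne_zero (right_ne_zero_of_mul h)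
  by_cases h1 : IsConj σ g ∧ q σ = s
  · have h2 : IsConj (q σ) (q g) := q.map_isConj h1.1
    rw [h1.2, hg] at h2
    exact isConj_one_left.1 h2
  · rw [if_neg h1] at hσ
    exact absurd rfl hσ

theorem ker_q {rP : P →* Qg} {q : P →* G} {rG : G →* Qg} (hr : rG.comp q = rP)
    (hi : Function.Injective rG) {g : P} (hg : rP g = 1) : q g = 1 := by
  apply hi
  rw [map_one, ← MonoidHom.comp_apply, hr, hg]

theorem unz_mono {D : RD0 K p ζ} {L : LDs D Ω} {T T' : Finset (Pl K)} {φ : Gal(Ω/K) →* G}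
    (h : Unz L T φ) (hT : T ⊆ T') : Unz L T' φ :=
  ⟨h.1, fun v hv hz => h.2 v hv fun h' => hz (hT h')⟩

variable [IsAlgClosure K Ω]

theorem ss_eq [Fintype P] [Finite G] [NeZero (p ^ m)] [NeZero N] (hp : p.Prime)
    (hζ : IsPrimitiveRoot ζ p) {D : RD0 K p ζ} (L : LDs D Ω) (Q : DP K Ω) (Fr : FR L)
    (I : ((Gal(Ω/K) → Gal(Ω/K) → Gal(Ω/K) → ZMod (p ^ m)) ×
      (Pl K → Gal(Ω/K) → Gal(Ω/K) → ZMod (p ^ m))) →+ AddCircle (1 : ℝ)) (c : CL p N P)
    {rP : P →* Qg} (hc : ∀ i, rP (c.g i) = 1) {q : P →* G} (hG : ∀ x : G, x ^ p ^ k = 1)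
    {rG : G →* Qg} (hr : rG.comp q = rP)
    (hi : Function.Injective rG) (wt : (Gal(Ω/K) →* Qg) → ℂ) (φ₁ : Gal(Ω/K) →* P)
    (b : P → P → ZMod (p ^ m)) (w : G → G → G → ZMod (p ^ m)) (E : Finset (Pl K))
    (e : Pl K → P) (M : ℕ) (T₀ Y : ℝ) :
    SS c (BB2 L Q Fr I rP rG wt φ₁ q b w) D E e M T₀ Y =
      ∑ φ ∈ XS2 L Q (fun _ => q.comp φ₁) E, (wt (rG.comp φ) * KA D Q I rP φ₁ b w φ *
        ∏ v ∈ E, Vg q b (e v) (φ (L.t v)) (φ (Fr.F v))) *
        ∑ f ∈ RC D N M T₀ Y E, ∏ v ∈ sp (ZZ D Y \ E) f, Vg q b (c.g (cf f v)) 1 (φ (Fr.F v)) := by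
  unfold SS
  simp only [Finset.mul_sum]
  rw [Finset.sum_comm]
  refine Finset.sum_congr rfl fun f hf => ?_
  rw [bb_eq L Q Fr I hr hi]
  set s : Finset (Pl K) := sp (ZZ D Y \ E) f with hs
  have hsE : Disjoint s E := by
    rw [Finset.disjoint_left]
    intro v hv
    exact (Finset.mem_sdiff.1 (mem_sp.1 hv).1).2
  have hsub : XS2 L Q (fun _ => q.comp φ₁) E ⊆ XS2 L Q (fun _ => q.comp φ₁) (s ∪ E) := by
    intro φ hφ
    rw [mem_xs2 hp hζ L Q hG] at hφ ⊢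
    exact ⟨unz_mono hφ.1 Finset.subset_union_right, hφ.2⟩
  rw [← Finset.sum_subset hsub fun φ h1 h2 => ?_]
  · refine Finset.sum_congr rfl fun φ hφ => ?_
    rw [mem_xs2 hp hζ L Q hG] at hφ
    rw [Finset.prod_union hsE, mul_assoc _ (∏ v ∈ E, _), mul_comm (∏ v ∈ E, _)]
    congr 2
    · refine Finset.prod_congr rfl fun v hv => ?_
      have h1 := Finset.mem_sdiff.1 (mem_sp.1 hv).1
      have h2 : D.Gd v := (Finset.mem_filter.1 h1.1).2
      have h3 : φ (L.t v) = 1 := hφ.1.2 v h2.1 h1.2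
      rw [h3]
      unfold gl
      rw [if_neg h1.2]
    · refine Finset.prod_congr rfl fun v hv => ?_
      unfold gl
      rw [if_pos hv]
  · rw [mem_xs2 hp hζ L Q hG] at h1
    rw [mem_xs2 hp hζ L Q hG] at h2
    have h3 : ∃ v, v ∉ D.S0 ∧ v ∉ E ∧ φ (L.t v) ≠ 1 := by
      by_contra h4
      push Not at h4
      exact h2 ⟨⟨h1.1.1, h4⟩, h1.2⟩
    obtain ⟨v, hv, hvE, ht⟩ := h3
    have h4 : v ∈ s := by
      by_contra h5
      exact ht (h1.1.2 v hv fun h6 => (Finset.mem_union.1 h6).elim h5 hvE)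
    have h5 : ∏ v ∈ s ∪ E, Vg q b (gl c E e f v) (φ (L.t v)) (φ (Fr.F v)) = 0 := by
      refine Finset.prod_eq_zero (Finset.mem_union_left _ h4) ?_
      by_contra h6
      refine ht (vg_supp (g := gl c E e f v) ?_ h6)
      unfold gl
      rw [if_neg hvE]
      exact ker_q hr hi (hc _)
    rw [h5, mul_zero]

theorem mnz [Fintype P] [Fintype G] [NeZero (p ^ m)] (hp : p.Prime)
    (hζ : IsPrimitiveRoot ζ p) {D : RD0 K p ζ} (L : LDs D Ω) (Q : DP K Ω) (Fr : FR L)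
    (I : ((Gal(Ω/K) → Gal(Ω/K) → Gal(Ω/K) → ZMod (p ^ m)) ×
      (Pl K → Gal(Ω/K) → Gal(Ω/K) → ZMod (p ^ m))) →+ AddCircle (1 : ℝ)) (c : CL p N P)
    {rP : P →* Qg} (hc : ∀ i, rP (c.g i) = 1) {q : P →* G} (hq : Function.Surjective q)
    (hP : ∀ x : P, x ^ p ^ k = 1)
    {rG : G →* Qg} (hr : rG.comp q = rP)
    (hi : Function.Injective rG) (wt : (Gal(Ω/K) →* Qg) → ℂ) (hwt : ∀ ψ, ‖wt ψ‖ ≤ 1)
    (hwt' : ∀ ψ, wt ψ ≠ 0 → Function.Surjective ψ) (φ₁ : Gal(Ω/K) →* P)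
    (b : P → P → ZMod (p ^ m)) (w : G → G → G → ZMod (p ^ m)) (hbw : Sta p m l q b w)
    (j₀ : Fin N) (ht : ¬ Tj b (c.g j₀)) :
    Mn2 k L Fr c j₀ (BB2 L Q Fr I rP rG wt φ₁ q b w) := by
  have hG : ∀ x : G, x ^ p ^ k = 1 := fun x => pow_surj hq hP x
  have hg : q (c.g j₀) = 1 := ker_q hr hi (hc j₀)
  set A : ℝ := ((Fintype.card ({v // v ∈ D.S0} → rP.ker) : ℕ) : ℝ) with hA
  have hA1 : 1 ≤ A := by
    rw [hA]
    exact_mod_cast Fintype.card_pos
  have hP1 : (1 : ℝ) ≤ Nat.card P := by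
    exact_mod_cast Nat.card_pos
  refine ⟨G, inferInstance, inferInstance, fun h => Vg q b (c.g j₀) 1 h, A * Nat.card P, hG,
    fun g h => vg_cls hq hbw hg g h, by nlinarith, fun T γ hT => ?_⟩
  refine ⟨fun Θ => if Θ ∈ XS2 L Q (fun _ => q.comp φ₁) T then wt (rG.comp Θ) *
    KA D Q I rP φ₁ b w Θ * ∏ v ∈ T, Vg q b (γ v) (Θ (L.t v)) (Θ (Fr.F v)) else 0,
    fun Θ => ?_, fun Θ hΘ _ => ?_, fun u hu huT => ?_⟩
  · beta_reduce
    split_ifs
    · rw [norm_mul, norm_mul, norm_prod]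
      calc ‖wt (rG.comp Θ)‖ * ‖KA D Q I rP φ₁ b w Θ‖ *
            ∏ v ∈ T, ‖Vg q b (γ v) (Θ (L.t v)) (Θ (Fr.F v))‖ ≤
            1 * A * ∏ _v ∈ T, (Nat.card P : ℝ) := by
            refine mul_le_mul (mul_le_mul (hwt _) (ka_norm _ _ _ _ _ _ _ _) (norm_nonneg _)
              zero_le_one) (Finset.prod_le_prod (fun _ _ => norm_nonneg _) fun v _ =>
                vg_norm hq _ _ _ _) (Finset.prod_nonneg fun _ _ => norm_nonneg _) (by linarith)
        _ = A * (Nat.card P : ℝ) ^ T.card := by rw [one_mul, Finset.prod_const]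
        _ ≤ A ^ (T.card + 1) * (Nat.card P : ℝ) ^ (T.card + 1) := by
            refine mul_le_mul ?_ (pow_le_pow_right₀ hP1 (Nat.le_succ _)) (by positivity)
              (by positivity)
            calc A = A ^ 1 := (pow_one A).symm
              _ ≤ A ^ (T.card + 1) := pow_le_pow_right₀ hA1 (by omega)
        _ = (A * Nat.card P) ^ (T.card + 1) := (mul_pow _ _ _).symm
    · rw [norm_zero]
      positivity
  · beta_reduce at hΘ
    split_ifs at hΘ with h1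
    · have h2 : Function.Surjective (rG.comp Θ) :=
        hwt' _ (left_ne_zero_of_mul (left_ne_zero_of_mul hΘ))
      have h3 : Function.Surjective Θ := by
        intro x
        obtain ⟨σ, hσ⟩ := h2 (rG x)
        exact ⟨σ, hi hσ⟩
      unfold mr
      have h4 : (Finset.univ.filter fun y : G => y ∈ Θ.range) = Finset.univ := by
        refine Finset.filter_true_of_mem fun y _ => ?_
        obtain ⟨σ, hσ⟩ := h3 y
        exact ⟨σ, hσ⟩
      rw [h4, vg_mean hq hbw hg ht, mul_zero]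
    · exact absurd rfl hΘ
  · rw [bb_eq L Q Fr I hr hi]
    unfold Ev2
    have hsub : XS2 L Q (fun _ => q.comp φ₁) T ⊆ XS2 L Q (fun _ => q.comp φ₁) (insert u T) := by
      intro φ hφ
      rw [mem_xs2 hp hζ L Q hG] at hφ ⊢
      exact ⟨unz_mono hφ.1 (Finset.subset_insert _ _), hφ.2⟩
    have hsub2 : XS2 L Q (fun _ => q.comp φ₁) T ⊆ HS2 L G T := by
      intro φ hφ
      rw [mem_xs2 hp hζ L Q hG] at hφ
      rw [mem_hs2 hp hζ L hG]
      exact hφ.1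
    rw [← Finset.sum_subset hsub fun φ h1 h2 => ?_, ← Finset.sum_subset hsub2 fun φ _ h2 => ?_]
    · refine Finset.sum_congr rfl fun φ hφ => ?_
      beta_reduce
      rw [if_pos hφ]
      rw [mem_xs2 hp hζ L Q hG] at hφ
      have h3 : φ (L.t u) = 1 := hφ.1.2 u hu.1 huT
      rw [Finset.prod_insert huT, Function.update_self, h3]
      have h4 : ∏ v ∈ T, Vg q b (Function.update γ u (c.g j₀) v) (φ (L.t v)) (φ (Fr.F v)) =
          ∏ v ∈ T, Vg q b (γ v) (φ (L.t v)) (φ (Fr.F v)) := by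
        refine Finset.prod_congr rfl fun v hv => ?_
        rw [Function.update_of_ne (ne_of_mem_of_not_mem hv huT)]
      rw [h4]
      ring
    · beta_reduce
      rw [if_neg h2, zero_mul]
    · rw [mem_xs2 hp hζ L Q hG] at h1
      rw [mem_xs2 hp hζ L Q hG] at h2
      have ht2 : φ (L.t u) ≠ 1 := by
        intro h3
        refine h2 ⟨⟨h1.1.1, fun v hv hvT => ?_⟩, h1.2⟩
        by_cases h4 : v = u
        · rw [h4, h3]
        · exact h1.1.2 v hv fun h5 => (Finset.mem_insert.1 h5).elim h4 hvT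
      rw [Finset.prod_insert huT, Function.update_self]
      have h5 : Vg q b (c.g j₀) (φ (L.t u)) (φ (Fr.F u)) = 0 := by
        by_contra h6
        exact ht2 (vg_supp hg h6)
      rw [h5, zero_mul, mul_zero]

end H88.E2
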