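import Pool.Agent.H88.E2.Defs
import Pool.Agent.H4.AP.Va

/-!
# [H88 E2 GRA] the local weights at unramified places: conjugation, mean value zero (pure group theory, 120 lines)

`q : P →* G`, `(b, w)` a state (`Sta`: `Nr2 b`, `Nr3 w`, `d2 b x y z = w (q x) (q y) (q z)`), `g : P` with `q g = 1`. `Tj b g`: the bracket of `g` with all elements of its centraliser is `0`.

* `br_mul`: for `q σ = 1`, `σ x = x σ`, `σ y = y σ`: `br b σ (x y) = br b σ x + br b σ y`. PROOF. `d2 b σ x y = 0`, `d2 b x σ y = 0`, `d2 b x y σ = 0` (`cob`, `map_one` on `q σ`, `Nr3.l`, `Nr3.m`, `Nr3.r`); unfold `d2`, `br`; the combination first - second + third, with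
 `σ * x = x * σ`, `σ * y = y * σ` (rewrite `x * σ` and `y * σ`), is the claim (`abel`).
* `br_cj`: for `q σ = 1`, `σ x = x σ`: `br b (h σ h⁻¹) (h x h⁻¹) = br b σ x`. PROOF. `br_conj` (H19/NF/Coc): the difference is `br (hc (d2 b) h) σ x`, and `hc (d2 b) h = fun x y => hc w (q h) (q x) (q y)` (funext, `cob`; see `hc_inf` in H19/NF/St), `hc w (q h) 1 y = 0`, `hc w (q h) y 1 = 0`
 (unfold `hc`; `q h * 1 * (q h)⁻¹ = 1`; `Nr3`).
* `tj_cj`: `Tj b g`, `q g = 1`, `σ` conjugate to `g`, `σ x = x σ` imply `br b σ x = 0` (`σ = h g h⁻¹`, `br_cj` at `h⁻¹ x h`).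
* `vg_cls`: `Vg q b g 1 (h * x * h⁻¹) = Vg q b g 1 x` for all `h x : G` (`q` onto). PROOF. `h = q h'`. In the sum over `σ` of `Vg` substitute `σ = h' σ' h'⁻¹` (`Fintype.sum_equiv (MulAut.conj h').toEquiv`), `IsConj` and `q σ = 1` are invariant, and `VV .. (h' σ h'⁻¹) (q h' * x * (q h')⁻¹) = VV .. σ x`
 for `q σ = 1`: substitute `x' = h' y h'⁻¹` in the sum `VV`, `WC` is invariant, and if `WC ≠ 0` then `br_cj`. (Or `vv_conj` of H19/NF/St, with `Wt WC`.)
* `vg_mean`: if not `Tj b g` then `∑ x : G, Vg q b g 1 x = 0`. PROOF. Interchange the sums: `∑ x, VV ψ q b WC σ x = ∑ x' : P, WC σ x' * ψ (- br b σ x')` (`Finset.sum_comm`, `Finset.sum_ite_eq`). For `σ` conjugate to `g` this is `0`: let `x₀` commute with `g`, `br b g x₀ ≠ 0`, `σ = h g h⁻¹`,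
 `x₁ = h x₀ h⁻¹`: commutes with `σ`, `br b σ x₁ ≠ 0` (`br_cj`). Substitute `x' = x₁ * y` (`Equiv.mulLeft`): `WC σ (x₁ * y) = WC σ y`, and by `br_mul` the sum is `ψ (- br b σ x₁)` times itself; `ψ (- br b σ x₁) ≠ 1`: `ψ = ch (p ^ m)` is injective: `ec` is injective (`AddCircle.toCircle`
 injective: `AddCircle.injective_toCircle` for the period `1 ≠ 0`), `ZMod.toAddCircle` is injective (`ZMod.toAddCircle_injective`); see also `ch_eq_one`-type lemmas in H55/APE, H19/ST, H86/AP (grep `ch (p ^ m)`).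
* `vg_norm`: `‖Vg q b g s x‖ ≤ Nat.card P` for all `g s x`. PROOF. At most `#ker` elements `σ` with `q σ = s` (`q` onto; the fibre is a coset), each `VV` has norm at most `#ker` (the number of the `x'` with `q x' = x`; `‖WC‖ ≤ 1`, `‖ψ‖ = 1`), so `‖Vg‖ ≤ (#ker)⁻¹ #ker #ker = #ker ≤ #P`. (See `vg_le`-type lemmas
 in H86/AP/InsP, H55/APE, H19/ST: `bb_bd` uses one.)
-/

set_option autoImplicit false
set_option linter.dupNamespace false

open scoped Classical

noncomputable section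

namespace H88.E2

open Pool.Agent.H19.NF Pool.Agent.H19.AB H86.AP

variable {p m l : ℕ} {P G : Type} [Group P] [Group G]

/-- the bracket with `g` is zero on the centraliser of `g` -/
def Tj {M : Type} [AddCommGroup M] (b : P → P → M) (g : P) : Prop :=
  ∀ x : P, g * x = x * g → br b g x = 0

theorem br_mul {q : P →* G} {b : P → P → ZMod (p ^ m)} {w : G → G → G → ZMod (p ^ m)}
    (h : Sta p m l q b w) {σ x y : P} (hσ : q σ = 1) (hx : σ * x = x * σ) (hy : σ * y = y * σ) :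
    br b σ (x * y) = br b σ x + br b σ y := by
  have h1 : d2 b σ x y = 0 := by
    rw [h.cob, hσ, h.nw.l]
  have h2 : d2 b x σ y = 0 := by
    rw [h.cob, hσ, h.nw.m]
  have h3 : d2 b x y σ = 0 := by
    rw [h.cob, hσ, h.nw.r]
  unfold d2 at h1 h2 h3
  rw [hx] at h1
  rw [hy] at h2
  unfold br
  linear_combination h1 - h2 + h3

theorem br_cj {q : P →* G} {b : P → P → ZMod (p ^ m)} {w : G → G → G → ZMod (p ^ m)}
    (h : Sta p m l q b w) {σ x : P} (hσ : q σ = 1) (hx : σ * x = x * σ) (y : P) :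
    br b (y * σ * y⁻¹) (y * x * y⁻¹) = br b σ x := by
  have h1 := br_conj b y hx
  have e3 : d2 b = fun x y z => w (q x) (q y) (q z) := by
    funext x y z
    exact h.cob x y z
  have h2 : br (hc (d2 b) y) σ x = 0 := by
    unfold br
    rw [e3, hc_inf, hc_inf, hσ]
    unfold hc
    rw [mul_one, mul_inv_cancel, h.nw.l, h.nw.m, h.nw.l, h.nw.r, h.nw.r, h.nw.m]
    simp
  rw [h2] at h1
  exact sub_eq_zero.1 h1

theorem tj_cj {q : P →* G} {b : P → P → ZMod (p ^ m)} {w : G → G → G → ZMod (p ^ m)}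
    (h : Sta p m l q b w) {g σ x : P} (hg : q g = 1) (ht : Tj b g) (hσ : IsConj σ g)
    (hx : σ * x = x * σ) : br b σ x = 0 := by
  obtain ⟨c, hc⟩ := isConj_iff.1 hσ
  have h1 : q σ = 1 := by
    have h2 : σ = c⁻¹ * g * c := by
      rw [← hc]
      group
    rw [h2, map_mul, map_mul, hg, mul_one, ← map_mul, inv_mul_cancel, map_one]
  rw [← br_cj h h1 hx c, hc]
  refine ht _ ?_
  rw [← hc]
  calc c * σ * c⁻¹ * (c * x * c⁻¹) = c * (σ * x) * c⁻¹ := by group
    _ = c * (x * σ) * c⁻¹ := by rw [hx]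
    _ = c * x * c⁻¹ * (c * σ * c⁻¹) := by group

theorem vg_cls [Fintype P] [NeZero (p ^ m)] {q : P →* G} (hq : Function.Surjective q)
    {b : P → P → ZMod (p ^ m)} {w : G → G → G → ZMod (p ^ m)} (h : Sta p m l q b w) {g : P}
    (hg : q g = 1) (y x : G) : Vg q b g 1 (y * x * y⁻¹) = Vg q b g 1 x := by
  have h1 := H4.AP.vb_conj' q hq h.cob g y 1 x
  rw [mul_one, mul_inv_cancel] at h1
  rw [h1]
  have h2 : br (hc w y) 1 x = 0 := by
    unfold br hc
    rw [mul_one, mul_inv_cancel, h.nw.l, h.nw.m, h.nw.l, h.nw.r, h.nw.r, h.nw.m]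
    simp
  rw [h2, neg_zero, AddChar.map_zero_eq_one, mul_one]

theorem vg_mean [Fintype P] [Fintype G] [NeZero (p ^ m)] {q : P →* G}
    (hq : Function.Surjective q) {b : P → P → ZMod (p ^ m)} {w : G → G → G → ZMod (p ^ m)}
    (h : Sta p m l q b w) {g : P} (hg : q g = 1) (ht : ¬ Tj b g) :
    ∑ x : G, Vg q b g 1 x = 0 := by
  unfold Vg
  rw [← Finset.mul_sum, Finset.sum_comm]
  refine mul_eq_zero_of_right _ (Finset.sum_eq_zero fun σ _ => ?_)
  by_cases hσ : IsConj σ g ∧ q σ = 1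
  swap
  · exact Finset.sum_eq_zero fun x _ => if_neg hσ
  rw [Finset.sum_congr rfl fun x _ => if_pos hσ]
  have h1 : ∑ x : G, VV (ch (p ^ m)) q b WC σ x = ∑ x' : P, WC σ x' * ch (p ^ m) (- br b σ x') := by
    unfold VV
    rw [Finset.sum_comm]
    refine Finset.sum_congr rfl fun x' _ => ?_
    rw [Finset.sum_ite_eq Finset.univ (q x') (fun _ => WC σ x' * ch (p ^ m) (- br b σ x')),
      if_pos (Finset.mem_univ _)]
  rw [h1]
  unfold Tj at ht
  push Not at ht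
  obtain ⟨x₀, hx₀, hb₀⟩ := ht
  obtain ⟨c, hc⟩ := isConj_iff.1 hσ.1.symm
  obtain ⟨x₁, hx₁⟩ : ∃ x₁, x₁ = c * x₀ * c⁻¹ := ⟨_, rfl⟩
  have hcom : σ * x₁ = x₁ * σ := by
    rw [← hc, hx₁]
    calc c * g * c⁻¹ * (c * x₀ * c⁻¹) = c * (g * x₀) * c⁻¹ := by group
      _ = c * (x₀ * g) * c⁻¹ := by rw [hx₀]
      _ = c * x₀ * c⁻¹ * (c * g * c⁻¹) := by group
  have hb₁ : br b σ x₁ ≠ 0 := by
    rw [← hc, hx₁, br_cj h hg hx₀ c]
    exact hb₀
  have h2 : ∑ x' : P, WC σ x' * ch (p ^ m) (- br b σ x') =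
      ch (p ^ m) (- br b σ x₁) * ∑ x' : P, WC σ x' * ch (p ^ m) (- br b σ x') := by
    rw [Finset.mul_sum]
    refine (Fintype.sum_equiv (Equiv.mulLeft x₁) _ _ fun y => ?_).symm
    show ch (p ^ m) (- br b σ x₁) * (WC σ y * ch (p ^ m) (- br b σ y)) =
      WC σ (x₁ * y) * ch (p ^ m) (- br b σ (x₁ * y))
    have e : σ * (x₁ * y) = x₁ * y * σ ↔ σ * y = y * σ := by
      rw [← mul_assoc, hcom, mul_assoc, mul_assoc, mul_right_inj]
    unfold WC
    by_cases hy : σ * y = y * σ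
    · rw [if_pos hy, if_pos (e.2 hy), br_mul h hσ.2 hcom hy, neg_add, AddChar.map_add_eq_mul]
      ring
    · rw [if_neg hy, if_neg fun h' => hy (e.1 h')]
      ring
  have h3 : ch (p ^ m) (- br b σ x₁) ≠ 1 := by
    intro h4
    exact hb₁ (neg_eq_zero.1 (H4.AP.ch_inj _ h4))
  have h5 : (1 - ch (p ^ m) (- br b σ x₁)) * ∑ x' : P, WC σ x' * ch (p ^ m) (- br b σ x') = 0 := by
    rw [sub_mul, one_mul, ← h2, sub_self]
  exact (mul_eq_zero.1 h5).resolve_left (sub_ne_zero.2 h3.symm)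

theorem vg_norm [Fintype P] [NeZero (p ^ m)] {q : P →* G} (hq : Function.Surjective q)
    (b : P → P → ZMod (p ^ m)) (g : P) (s x : G) : ‖Vg q b g s x‖ ≤ Nat.card P := by
  rw [Nat.card_eq_fintype_card]
  exact H4.AP.vb_norm q g s x

end H88.E2
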